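import Pool.Agent.EDX.Stmts2

set_option autoImplicit false

namespace Pool.Agent.EDX.H59

open Polynomial Pool.Agent.EDG Pool.Agent.EDX

theorem exists_irr_factor (q : KK[X]) (hq : Prime q) (Φ : KK[X]) :
    Φ ≠ 0 → q ∣ Φ.comp FK → ∃ π : KK[X], Irreducible π ∧ π ∣ Φ ∧ q ∣ π.comp FK := by
  refine UniqueFactorizationMonoid.induction_on_prime Φ ?_ ?_ ?_
  · intro h; exact absurd rfl h
  · intro u hu _ hd
    exfalso
    have h1 : IsUnit (u.comp FK) := by
      have : u.comp FK = Polynomial.compRingHom FK u := rfl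
      rw [this]
      exact hu.map _
    exact hq.not_isUnit (isUnit_of_dvd_unit hd h1)
  · intro a p ha hp ih _ hd
    rw [Polynomial.mul_comp] at hd
    rcases hq.dvd_or_dvd hd with h | h
    · exact ⟨p, hp.irreducible, Dvd.intro _ rfl, h⟩
    · obtain ⟨π, h1, h2, h3⟩ := ih ha h
      exact ⟨π, h1, h2.trans (Dvd.intro_left _ rfl), h3⟩

theorem exists_integral (π : KK[X]) (hπ : Irreducible π) :
    ∃ ψ : ℤ[X][X], Irreducible ψ ∧ 0 < ψ.natDegree ∧ Associated (ψ.map iK) π := by
  let _ : NormalizedGCDMonoid ℤ[X] := Classical.arbitrary _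
  obtain ⟨b, hb0, hb⟩ := IsLocalization.integerNormalization_spec (nonZeroDivisors ℤ[X]) π
  set P := IsLocalization.integerNormalization (nonZeroDivisors ℤ[X]) π with hP
  have hbne : b ≠ 0 := nonZeroDivisors.ne_zero hb0
  have hb1 : P.map (algebraMap ℤ[X] KK) = C (algebraMap ℤ[X] KK b) * π := by
    rw [hb, Algebra.smul_def]
    rfl
  have hbu : IsUnit (C (algebraMap ℤ[X] KK b) : KK[X]) := by
    rw [Polynomial.isUnit_C, isUnit_iff_ne_zero]
    intro h
    exact hbne ((IsFractionRing.injective ℤ[X] KK) (by rw [h, map_zero]))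
  have hP0 : P ≠ 0 := by
    intro h
    rw [h, Polynomial.map_zero] at hb1
    rcases mul_eq_zero.mp hb1.symm with h1 | h1
    · exact hbu.ne_zero h1
    · exact hπ.ne_zero h1
  have hc0 : P.content ≠ 0 := by rwa [Ne, Polynomial.content_eq_zero_iff]
  have hcu : IsUnit (C (algebraMap ℤ[X] KK P.content) : KK[X]) := by
    rw [Polynomial.isUnit_C, isUnit_iff_ne_zero]
    intro h
    exact hc0 ((IsFractionRing.injective ℤ[X] KK) (by rw [h, map_zero]))
  have h2 : P.map (algebraMap ℤ[X] KK) =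
      C (algebraMap ℤ[X] KK P.content) * (P.primPart).map (algebraMap ℤ[X] KK) := by
    conv_lhs => rw [P.eq_C_content_mul_primPart]
    rw [Polynomial.map_mul, Polynomial.map_C]
  have hass : Associated (P.primPart.map (algebraMap ℤ[X] KK)) π := by
    have a1 : Associated (P.map (algebraMap ℤ[X] KK)) π := by
      rw [hb1]; exact (associated_unit_mul_left π _ hbu)
    have a2 : Associated (P.map (algebraMap ℤ[X] KK)) (P.primPart.map (algebraMap ℤ[X] KK)) := by
      rw [h2]; exact (associated_unit_mul_left _ _ hcu)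
    exact a2.symm.trans a1
  have hirr : Irreducible (P.primPart.map (algebraMap ℤ[X] KK)) := hass.symm.irreducible hπ
  refine ⟨P.primPart, ?_, ?_, hass⟩
  · exact (P.isPrimitive_primPart.irreducible_iff_irreducible_map_fraction_map (K := KK)).mpr hirr
  · have h3 : 0 < (P.primPart.map (algebraMap ℤ[X] KK)).natDegree := hirr.natDegree_pos
    rwa [Polynomial.natDegree_map_eq_of_injective (IsFractionRing.injective ℤ[X] KK)] at h3

theorem stp : StpStmt := by
  intro ψ hψ hd Φ hΦ hdvd
  have hprim : ψ.IsPrimitive := hψ.isPrimitive hd.ne'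
  have hirr : Irreducible (ψ.map iK) :=
    (hprim.irreducible_iff_irreducible_map_fraction_map (K := KK)).mp hψ
  obtain ⟨π, hπ, hπΦ, hq⟩ := exists_irr_factor (ψ.map iK) hirr.prime Φ hΦ hdvd
  obtain ⟨ψ', h1, h2, h3⟩ := exists_integral π hπ
  refine ⟨ψ', h1, h2, h3.dvd.trans hπΦ, ?_⟩
  have h4 : ψ.map iK ∣ (ψ'.comp F).map iK := by
    rw [Polynomial.map_comp]
    obtain ⟨c, hc⟩ := h3.symm.dvd
    refine hq.trans ?_
    have : (ψ'.map iK).comp (F.map iK) = π.comp FK * c.comp FK := by
      rw [hc, Polynomial.mul_comp]; rfl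
    rw [this]
    exact Dvd.intro _ rfl
  exact hprim.dvd_of_fraction_map_dvd_fraction_map (K := KK) h4

end Pool.Agent.EDX.H59
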